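import Pool.Agent.W785.FD.Defs

/-! Statements of the parts of the proof of MP_024e69_an. -/

set_option autoImplicit false

open MeasureTheory Metric Set Filter
open scoped ENNReal NNReal Topology

namespace Pool.Agent.W785.FD

universe u
variable {X : Type u} [MetricSpace X] [MeasurableSpace X]

/-- Positive and finite on balls, doubling with constant `D`. -/
structure Dbl (μ : Measure X) (D : ℝ) : Prop where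
  one_le : 1 ≤ D
  pos : ∀ (x : X) (r : ℝ), 0 < r → 0 < μ (ball x r)
  fin : ∀ (x : X) (r : ℝ), μ (ball x r) < ∞
  dbl : ∀ (x : X) (r : ℝ), 0 < r → μ (ball x (2 * r)) ≤ ENNReal.ofReal D * μ (ball x r)

/-- Integrable on balls. -/
def LI (μ : Measure X) (u : X → ℝ) : Prop := ∀ x r, IntegrableOn u (ball x r) μ

/-- `(u, g)` satisfies a Poincare inequality with constants `K`, `Λ`. -/
def PP (μ : Measure X) (p K Λ : ℝ) (u : X → ℝ) (g : X → ℝ≥0∞) : Prop :=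
  ∀ (x : X) (r : ℝ), 0 < r →
    osc μ u x r ≤ ENNReal.ofReal (K * r) * (lav μ (fun y => g y ^ p) x (Λ * r)) ^ (1 / p)

/-- The Poincare inequality with constants. -/
structure PI (μ : Measure X) (p C L : ℝ) : Prop where
  one_lt : 1 < p
  nonneg : 0 ≤ C
  one_le : 1 ≤ L
  poin : ∀ (u : X → ℝ) (g : X → ℝ≥0∞), LI μ u → UG u g → PP μ p C L u g

/-- Density of `V` in the ball `B(x, r)`. -/
noncomputable def dens (μ : Measure X) (V : Set X) (x : X) (r : ℝ) : ℝ≥0∞ :=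
  μ (V ∩ ball x r) / μ (ball x r)

/-- `V` has density zero at `z`. -/
def DZ (μ : Measure X) (V : Set X) (z : X) : Prop :=
  Tendsto (fun r => dens μ V z r) (𝓝[>] 0) (𝓝 0)

/-- Both `V` and its complement have density at least `τ` in `B(x, r)`. -/
def Amb (μ : Measure X) (V : Set X) (τ : ℝ) (x : X) (r : ℝ) : Prop :=
  ENNReal.ofReal τ ≤ dens μ V x r ∧ ENNReal.ofReal τ ≤ dens μ Vᶜ x r

/-- Scale invariant energy `r^p ⨍_{B(x, Λ r)} g^p`. -/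
noncomputable def ee (μ : Measure X) (p : ℝ) (g : X → ℝ≥0∞) (Λ : ℝ) (x : X) (r : ℝ) : ℝ≥0∞ :=
  ENNReal.ofReal (r ^ p) * lav μ (fun y => g y ^ p) x (Λ * r)

/-- Riesz type potential. -/
noncomputable def Pot (μ : Measure X) (p : ℝ) (g : X → ℝ≥0∞) (Λ r : ℝ) (z : X) : ℝ≥0∞ :=
  ∑' i : ℕ, ENNReal.ofReal (r / 2 ^ i) * (lav μ (fun y => g y ^ p) z (Λ * (r / 2 ^ i))) ^ (1 / p)

/-- Weak upper gradients in terms of one exceptional function. -/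
def WU (μ : Measure X) (p : ℝ) (u : X → ℝ) (g : X → ℝ≥0∞) : Prop :=
  Measurable g ∧ ∃ h : X → ℝ≥0∞, Measurable h ∧ ∫⁻ x, h x ^ p ∂μ < ∞ ∧
    ∀ c : Crv X, CrvIneq u g c ∨ c.int h = ∞

/-- `Z` is avoided by almost all curves. -/
def Exc (μ : Measure X) (p : ℝ) (Z : Set X) : Prop :=
  μ Z = 0 ∧ ∃ h : X → ℝ≥0∞, Measurable h ∧ ∫⁻ x, h x ^ p ∂μ < ∞ ∧
    ∀ c : Crv X, 0 < c.l → (∀ t ∈ Icc 0 c.l, c.γ t ∉ Z) ∨ c.int h = ∞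

/-- Normalised capacity of `E` in the dyadic ball `B(x, 2^{-k})`. -/
noncomputable def aa (μ : Measure X) (p : ℝ) (E : Set X) (x : X) (k : ℕ) : ℝ≥0∞ :=
  capB μ p (E ∩ ball x ((1 / 2) ^ k)) x (2 * (1 / 2) ^ k) *
    ENNReal.ofReal (((1 / 2 : ℝ) ^ k) ^ p) / μ (ball x ((1 / 2) ^ k))

/-- The hypotheses of the basic inequality: `φ` is one on the open set `O`, and at all points
outside `O` the set `V` or its complement has density zero. -/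
structure Sep (μ : Measure X) (V : Set X) (φ : X → ℝ) (g : X → ℝ≥0∞) (O : Set X) : Prop where
  meas : NullMeasurableSet V μ
  mphi : Measurable φ
  nonneg : ∀ y, 0 ≤ φ y
  le_one : ∀ y, φ y ≤ 1
  ug : UG φ g
  isOpen : IsOpen O
  eq_one : ∀ y ∈ O, φ y = 1
  alt : ∀ z, z ∉ O → DZ μ V z ∨ DZ μ Vᶜ z

/-! ### Measure theory -/

def S_PROPER (μ : Measure X) (D : ℝ) : Prop := Dbl μ D → ProperSpace X

def S_LD (μ : Measure X) : Prop :=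
  ∀ u : X → ℝ, LI μ u → ∀ᵐ x ∂μ,
    Tendsto (fun r => lav μ (fun y => ENNReal.ofReal |u y - u x|) x r) (𝓝[>] 0) (𝓝 0)

def S_FA (μ : Measure X) (D : ℝ) : Prop :=
  ∀ f : X → ℝ≥0∞, Measurable f → ∀ (x : X) (R s : ℝ), 0 < s →
    ∫⁻ z in ball x R, lav μ f z s ∂μ ≤ ENNReal.ofReal D * ∫⁻ y in ball x (R + s), f y ∂μ

def S_JEN (μ : Measure X) (p : ℝ) : Prop :=
  ∀ f : X → ℝ≥0∞, AEMeasurable f μ → ∀ (x : X) (r : ℝ), 0 < r →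
    lav μ f x r ≤ (lav μ (fun z => f z ^ p) x r) ^ (1 / p)

def S_MEAS (μ : Measure X) : Prop :=
  ∀ V : Set X, (∀ x ∈ V, DZ μ Vᶜ x) → NullMeasurableSet V μ

def S_AVG (μ : Measure X) : Prop :=
  ∀ f : X → ℝ≥0∞, Measurable f → ∫⁻ x, f x ∂μ < ∞ →
    Tendsto (fun s => ∫⁻ z, ((lav μ f z s - f z) + (f z - lav μ f z s)) ∂μ) (𝓝[>] 0) (𝓝 0)

/-! ### Poincare pairs -/

def S_POT1 (μ : Measure X) (p D : ℝ) : Prop :=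
  ∀ K Λ : ℝ, 0 ≤ K → 1 ≤ Λ → ∀ (u : X → ℝ) (g : X → ℝ≥0∞), LI μ u → PP μ p K Λ u g →
    ∀ᵐ z ∂μ, ∀ r, 0 < r →
      ENNReal.ofReal |u z - mean μ u z r| ≤ ENNReal.ofReal (D * K) * Pot μ p g Λ r z

def S_POT2 (μ : Measure X) (p D : ℝ) : Prop :=
  ∀ Λ : ℝ, 0 < Λ → ∀ g : X → ℝ≥0∞, Measurable g → ∀ (x : X) (R r : ℝ), 0 < R → 0 < r →
    ∫⁻ z in ball x R, (Pot μ p g Λ r z) ^ p ∂μ ≤
      ENNReal.ofReal (2 ^ p * D * r ^ p) * ∫⁻ y in ball x (R + Λ * r), g y ^ p ∂μ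

/-- The `(p, p)` inequality. -/
def S_PPP (μ : Measure X) (p : ℝ) : Prop :=
  ∀ K Λ : ℝ, 0 ≤ K → 1 ≤ Λ → ∃ K' : ℝ, 0 < K' ∧ ∀ (u : X → ℝ) (g : X → ℝ≥0∞), LI μ u →
    Measurable g → PP μ p K Λ u g → ∀ (x : X) (r : ℝ), 0 < r →
      ∫⁻ y in ball x r, (ENNReal.ofReal |u y - mean μ u x r|) ^ p ∂μ ≤
        ENNReal.ofReal (K' * r ^ p) * ∫⁻ y in ball x ((1 + 2 * Λ) * r), g y ^ p ∂μ

def S_CHAIN (μ : Measure X) (p : ℝ) : Prop :=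
  ∀ K Λ : ℝ, 0 ≤ K → 1 ≤ Λ → ∃ K' : ℝ, 0 < K' ∧ ∀ (v : X → ℝ) (g : X → ℝ≥0∞), LI μ v →
    Measurable g → PP μ p K Λ v g → ∀ ρ : ℝ, 0 < ρ → ∀ c : Crv X, ρ ≤ c.l →
      ENNReal.ofReal |mean μ v (c.γ 0) ρ - mean μ v (c.γ c.l) ρ| ≤
        ENNReal.ofReal K' * c.int (fun z => (lav μ (fun y => g y ^ p) z ((2 * Λ + 2) * ρ)) ^ (1 / p))

/-- Closing lemma: a Poincare pair has a Newtonian representative with explicit values. -/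
def S_CLOSE (μ : Measure X) (p : ℝ) : Prop :=
  ∀ K Λ : ℝ, 0 ≤ K → 1 ≤ Λ → ∃ K' : ℝ, 0 < K' ∧ ∀ (v : X → ℝ) (g : X → ℝ≥0∞),
    AEMeasurable v μ → (∀ y, 0 ≤ v y) → (∀ y, v y ≤ 1) → Measurable g → ∫⁻ y, g y ^ p ∂μ < ∞ →
    PP μ p K Λ v g → ∃ w : X → ℝ, Measurable w ∧ (∀ y, 0 ≤ w y) ∧ (∀ y, w y ≤ 1) ∧ w =ᵐ[μ] v ∧
      WU μ p w (fun z => ENNReal.ofReal K' * g z) ∧
      ∀ y, Tendsto (fun r => mean μ v y r) (𝓝[>] 0) (𝓝 0) → w y = 0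

/-! ### Curves, upper gradients, capacities -/

def S_WU (μ : Measure X) (p : ℝ) : Prop := ∀ u g, WUG μ p u g ↔ WU μ p u g

def S_STR (μ : Measure X) (p : ℝ) : Prop :=
  ∀ (u : X → ℝ) (t : ℝ≥0∞), En μ p u < t → ∃ g, UG u g ∧ ∫⁻ x, g x ^ p ∂μ < t

/-- Locality, weak form. -/
def S_LOC (μ : Measure X) (p : ℝ) : Prop :=
  ∀ (f : X → ℝ) (g : X → ℝ≥0∞), WU μ p f g → ∫⁻ x, g x ^ p ∂μ < ∞ →
    ∀ S : Set X, MeasurableSet S → μ ({x | f x ≠ 0} \ S) = 0 → WU μ p f (S.indicator g)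

/-- Locality, strong form. -/
def S_LOCS (X : Type u) [MetricSpace X] [MeasurableSpace X] : Prop :=
  ∀ (f : X → ℝ) (g : X → ℝ≥0∞), UG f g → (∀ c : Crv X, c.int g < ∞) →
    ∀ S : Set X, MeasurableSet S → {x | f x ≠ 0} ⊆ S → UG f (S.indicator g)

def S_QE (μ : Measure X) (p : ℝ) : Prop :=
  ∀ u : X → ℝ, Measurable u → (∀ᵐ x ∂μ, u x = 0) → ∀ g : X → ℝ≥0∞, WU μ p u g →
    ∫⁻ x, g x ^ p ∂μ < ∞ → Exc μ p {x | u x ≠ 0}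

def S_CP0 (μ : Measure X) (p : ℝ) : Prop := ∀ E : Set X, Cp μ p E = 0 → Exc μ p E

def S_MONO (μ : Measure X) (p : ℝ) : Prop :=
  ∀ (A B : Set X) (x : X) (r R : ℝ), A ⊆ B → r ≤ R → capB μ p A x R ≤ capB μ p B x r

def S_SUB (μ : Measure X) (p : ℝ) : Prop :=
  ∀ (A B : Set X) (x : X) (r : ℝ),
    capB μ p (A ∪ B) x r ≤ ENNReal.ofReal (2 ^ p) * (capB μ p A x r + capB μ p B x r)

def S_NEG (μ : Measure X) (p : ℝ) : Prop :=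
  ∀ Z : Set X, Exc μ p Z → ∀ (A : Set X) (x : X) (r R : ℝ), r ≤ R →
    capB μ p ((A ∪ Z) ∩ ball x r) x R ≤ capB μ p (A ∩ ball x r) x R

/-- Outer capacity. -/
def S_LSC (μ : Measure X) (p : ℝ) : Prop :=
  ∀ (A : Set X) (x : X) (r : ℝ) (t : ℝ≥0∞), 0 < r → capB μ p A x r < t →
    ∃ (u : X → ℝ) (g : X → ℝ≥0∞) (O : Set X), Measurable u ∧ (∀ y, 0 ≤ u y) ∧ (∀ y, u y ≤ 1) ∧
      UG u g ∧ ∫⁻ y, g y ^ p ∂μ < t ∧ IsOpen O ∧ A ⊆ O ∧ (∀ y ∈ O, u y = 1) ∧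
      (∀ y, y ∉ ball x r → u y = 0)

def S_ANN (X : Type u) [MetricSpace X] : Prop :=
  ∀ x : X, ∃ r0 : ℝ, 0 < r0 ∧ ∀ r : ℝ, 0 < r → r < r0 → ∃ z : X, dist z x = 5 * r

/-- Sobolev inequality for functions vanishing outside a small ball. -/
def S_SOB (μ : Measure X) (p : ℝ) : Prop :=
  ∃ K : ℝ, 0 < K ∧ ∀ x : X, ∃ r0 : ℝ, 0 < r0 ∧ ∀ r : ℝ, 0 < r → r < r0 →
    ∀ (u : X → ℝ) (g : X → ℝ≥0∞), AEMeasurable u μ → (∀ y, 0 ≤ u y) → (∀ y, u y ≤ 1) → UG u g →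
      (∀ y, y ∉ ball x (4 * r) → u y = 0) →
        ∫⁻ y, (ENNReal.ofReal (u y)) ^ p ∂μ ≤ ENNReal.ofReal (K * r ^ p) * ∫⁻ y, g y ^ p ∂μ

def S_CUB (μ : Measure X) (p : ℝ) : Prop :=
  ∃ K : ℝ, 0 < K ∧ ∀ (x : X) (r : ℝ), 0 < r →
    capB μ p (ball x r) x (2 * r) ≤ ENNReal.ofReal (K / r ^ p) * μ (ball x r)

def S_CLB (μ : Measure X) (p : ℝ) : Prop :=
  ∃ K : ℝ, 0 < K ∧ ∀ x : X, ∃ r0 : ℝ, 0 < r0 ∧ ∀ r : ℝ, 0 < r → r < r0 → ∀ A : Set X,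
    μ (A ∩ ball x r) ≤ ENNReal.ofReal (K * r ^ p) * capB μ p (A ∩ ball x r) x (2 * r)

def S_CMP (μ : Measure X) (p : ℝ) : Prop :=
  ∃ K : ℝ, 0 < K ∧ ∀ x : X, ∃ r0 : ℝ, 0 < r0 ∧ ∀ r : ℝ, 0 < r → r < r0 → ∀ A : Set X,
    capB μ p (A ∩ ball x r) x (2 * r) ≤ ENNReal.ofReal K * capB μ p (A ∩ ball x r) x (4 * r)

def S_THIN (μ : Measure X) (p : ℝ) : Prop :=
  ∀ (E : Set X) (x : X), Thin μ p E x ↔ ∑' k : ℕ, (aa μ p E x k) ^ (1 / (p - 1)) ≠ ∞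

def S_DENS (μ : Measure X) (p : ℝ) : Prop := ∀ (E : Set X) (x : X), Thin μ p E x → DZ μ E x

/-! ### The basic inequality -/

def S_STEPA (μ : Measure X) (p D L : ℝ) : Prop :=
  ∀ Λ τ : ℝ, L ≤ Λ → 0 < τ → ∃ K : ℝ, 0 < K ∧ ∀ (V : Set X) (φ : X → ℝ) (g : X → ℝ≥0∞),
    NullMeasurableSet V μ → Measurable φ → (∀ y, 0 ≤ φ y) → (∀ y, φ y ≤ 1) → UG φ g →
    ∀ (x : X) (r : ℝ), 0 < r → Amb μ V τ x r → ∃ (z : X) (s : ℝ), 0 < s ∧ s ≤ 2 * r ∧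
      dist z x < r ∧ Amb μ V (1 / (2 * D ^ 2)) z s ∧
      ee μ p g Λ z s ≤ ENNReal.ofReal K * ee μ p g (2 * Λ + 1) x r ∧
      ENNReal.ofReal |mean μ φ z s - mean μ φ x r| ≤
        ENNReal.ofReal K * (ee μ p g (2 * Λ + 1) x r) ^ (1 / p)

def S_KER (μ : Measure X) (D : ℝ) : Prop :=
  ∀ V : Set X, NullMeasurableSet V μ → ∀ ρ : ℝ, 0 < ρ → ∃ h : X → ℝ, Continuous h ∧
    (∀ y, 0 ≤ h y) ∧ (∀ y, h y ≤ 1) ∧
    UG h ({y | h y ≠ 0 ∧ h y ≠ 1}.indicator (fun _ => ENNReal.ofReal (6 * D ^ 2 / ρ))) ∧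
    (∀ y, dens μ V y (2 * ρ) < ENNReal.ofReal (1 / (3 * D)) → h y = 0) ∧
    (∀ y, dens μ Vᶜ y (2 * ρ) < ENNReal.ofReal (1 / (3 * D)) → h y = 1)

def S_L1 (μ : Measure X) (D : ℝ) : Prop :=
  ∀ V : Set X, NullMeasurableSet V μ → ∀ (τ ρ : ℝ) (x : X) (r : ℝ), 0 ≤ τ → 0 < ρ → ρ ≤ r →
    μ {w | w ∈ V ∧ w ∈ ball x r ∧ dens μ V w (2 * ρ) < ENNReal.ofReal τ} ≤
      ENNReal.ofReal (D ^ 4 * τ) * μ (ball x r)

def S_STEPB (μ : Measure X) (p L : ℝ) : Prop :=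
  ∀ κ : ℝ, 0 < κ → κ ≤ 1 / 2 → ∃ τ : ℝ, 0 < τ ∧ ∀ ε Λ : ℝ, 0 < ε → 1 ≤ Λ →
    ∃ K : ℝ, 0 < K ∧ ∀ (V : Set X) (φ : X → ℝ) (g : X → ℝ≥0∞),
    NullMeasurableSet V μ → Measurable φ → (∀ y, 0 ≤ φ y) → (∀ y, φ y ≤ 1) → UG φ g →
    ∀ (x : X) (r : ℝ), 0 < r → Amb μ V κ x r → ∃ (z : X) (s : ℝ), 0 < s ∧ s ≤ r / 8 ∧
      dist z x ≤ (L + 1) * r ∧ Amb μ V τ z s ∧
      ee μ p g Λ z s ≤ ENNReal.ofReal ε * ee μ p g (L * (L + 3)) x r ∧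
      ENNReal.ofReal |mean μ φ z s - mean μ φ x r| ≤
        ENNReal.ofReal K * (ee μ p g (L * (L + 3)) x r) ^ (1 / p)

/-- The basic inequality: in a ball where `V` and its complement have positive density, `1 - φ` is
small in the mean if the energy of `φ` is small. -/
def S_BASIC (μ : Measure X) (p : ℝ) : Prop :=
  ∀ τ : ℝ, 0 < τ → ∃ K Λ : ℝ, 0 < K ∧ 1 ≤ Λ ∧
    ∀ (V : Set X) (φ : X → ℝ) (g : X → ℝ≥0∞) (O : Set X), Sep μ V φ g O →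
      ∀ (x : X) (r : ℝ), 0 < r → Amb μ V τ x r →
        ENNReal.ofReal (1 - mean μ φ x r) ≤ ENNReal.ofReal K * (ee μ p g Λ x r) ^ (1 / p)

/-- `(1 - φ) 1_V` satisfies a Poincare inequality with the gradient of `φ`. -/
def S_PAIR (μ : Measure X) (p : ℝ) : Prop :=
  ∃ K Λ : ℝ, 0 < K ∧ 1 ≤ Λ ∧
    ∀ (V : Set X) (φ : X → ℝ) (g : X → ℝ≥0∞) (O : Set X), Sep μ V φ g O →
      PP μ p K Λ (V.indicator (fun y => 1 - φ y)) g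

/-- Capacity of a superlevel set of a function with small mean. -/
def S_CUT (μ : Measure X) (p : ℝ) : Prop :=
  ∀ K Λ K1 : ℝ, 0 ≤ K → 1 ≤ Λ → 0 ≤ K1 → ∃ K2 : ℝ, 0 < K2 ∧ ∀ (w : X → ℝ) (g : X → ℝ≥0∞),
    Measurable w → (∀ y, 0 ≤ w y) → (∀ y, w y ≤ 1) → Measurable g → ∫⁻ y, g y ^ p ∂μ < ∞ →
    WU μ p w (fun z => ENNReal.ofReal K1 * g z) → PP μ p K Λ w g →
    ∀ (x : X) (r : ℝ), 0 < r → mean μ w x r ≤ 1 / 8 →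
      capB μ p ({y | 1 / 2 ≤ w y} ∩ ball x (r / 2)) x r ≤
        ENNReal.ofReal K2 * ∫⁻ y in ball x ((1 + 2 * Λ) * r), g y ^ p ∂μ

/-! ### Assembly -/

/-- Local estimate: at small scales around `x` the ball is not ambiguous for `V1` when the
capacity of the separating set is small, and then the capacity of the component with small density
is controlled. -/
def S_KEY (μ : Measure X) (p : ℝ) : Prop :=
  ∀ τ : ℝ, 0 < τ → τ ≤ 1 / 8 → ∃ (K ε : ℝ) (m : ℕ), 0 < K ∧ 0 < ε ∧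
    ∀ V1 V2 : Set X, FinelyOpen μ p V1 → FinelyOpen μ p V2 → Disjoint V1 V2 →
      ∀ x : X, ∃ k0 : ℕ, ∀ k, k0 ≤ k → ∀ t : ℝ≥0∞, aa μ p (V1 ∪ V2)ᶜ x k < t →
        t ≤ ENNReal.ofReal ε →
        ¬ Amb μ V1 τ x (2 * (1 / 2) ^ (k + m)) ∧
        (dens μ V1 x (2 * (1 / 2) ^ (k + m)) < ENNReal.ofReal τ →
          aa μ p V1 x (k + m) ≤ ENNReal.ofReal K * t)

def S_MP (μ : Measure X) (p : ℝ) : Prop :=
  ∀ V1 V2 : Set X, FinelyOpen μ p V1 → FinelyOpen μ p V2 → Disjoint V1 V2 →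
    ∀ x : X, Thin μ p (V1 ∪ V2)ᶜ x → Thin μ p V1 x ∨ Thin μ p V2 x

end Pool.Agent.W785.FD
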