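import Pool.Agent.W785.FD.Base

/-! Final step: assembly of the theorem from the parts. -/

set_option autoImplicit false

open MeasureTheory Metric Set Filter
open scoped ENNReal NNReal Topology

namespace Pool.Agent.W785.FD

variable {X : Type*} [MetricSpace X] [MeasurableSpace X] {μ : Measure X} {p D : ℝ}

theorem add_rpow_le' {q : ℝ} (hq : 0 < q) (a b : ℝ≥0∞) :
    (a + b) ^ q ≤ 2 ^ q * (a ^ q + b ^ q) := by
  have h1 : a + b ≤ 2 * max a b := by
    rw [two_mul]
    gcongr
    · exact le_max_left _ _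
    · exact le_max_right _ _
  calc (a + b) ^ q ≤ (2 * max a b) ^ q := by gcongr
    _ = 2 ^ q * (max a b) ^ q := ENNReal.mul_rpow_of_nonneg _ _ hq.le
    _ ≤ 2 ^ q * (a ^ q + b ^ q) := by
        gcongr
        rcases le_total a b with h | h
        · rw [max_eq_right h]; exact le_add_self
        · rw [max_eq_left h]; exact le_self_add

theorem aa_mono (h : S_MONO μ p) {A B : Set X} (hAB : A ⊆ B) (x : X) (k : ℕ) :
    aa μ p A x k ≤ aa μ p B x k := by
  unfold aa
  gcongr
  exact h _ _ _ _ _ (inter_subset_inter_left _ hAB) le_rfl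

theorem aa_union (h : S_MONO μ p) (h2 : S_SUB μ p) (A B : Set X) (x : X) (k : ℕ) :
    aa μ p (A ∪ B) x k ≤ ENNReal.ofReal (2 ^ p) * (aa μ p A x k + aa μ p B x k) := by
  unfold aa
  rw [union_inter_distrib_right]
  have := h2 (A ∩ ball x ((1 / 2) ^ k)) (B ∩ ball x ((1 / 2) ^ k)) x (2 * (1 / 2) ^ k)
  calc _ ≤ ENNReal.ofReal (2 ^ p) * (capB μ p (A ∩ ball x ((1 / 2) ^ k)) x (2 * (1 / 2) ^ k) +
        capB μ p (B ∩ ball x ((1 / 2) ^ k)) x (2 * (1 / 2) ^ k)) *
        ENNReal.ofReal (((1 / 2 : ℝ) ^ k) ^ p) / μ (ball x ((1 / 2) ^ k)) := by gcongr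
    _ = _ := by
        rw [← ENNReal.add_div, ← add_mul, mul_div_assoc, mul_div_assoc, mul_assoc]

theorem thin_mono (hp : 1 < p) (h1 : S_THIN μ p) (h : S_MONO μ p) {A B : Set X} (hAB : A ⊆ B)
    {x : X} (hB : Thin μ p B x) : Thin μ p A x := by
  have hq : 0 ≤ 1 / (p - 1) := by have : 0 < p - 1 := by linarith
                                  positivity
  rw [h1] at hB ⊢
  refine ne_top_of_le_ne_top hB (ENNReal.tsum_le_tsum fun k => ?_)
  exact ENNReal.rpow_le_rpow (aa_mono h hAB x k) hq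

theorem thin_union (hp : 1 < p) (h1 : S_THIN μ p) (h : S_MONO μ p) (h2 : S_SUB μ p)
    {A B : Set X} {x : X} (hA : Thin μ p A x) (hB : Thin μ p B x) : Thin μ p (A ∪ B) x := by
  have hp1 : 0 < p - 1 := by linarith
  have hq : 0 < 1 / (p - 1) := by positivity
  rw [h1] at hA hB ⊢
  set q := 1 / (p - 1) with hqd
  have key : ∀ k, (aa μ p (A ∪ B) x k) ^ q ≤
      (ENNReal.ofReal (2 ^ p)) ^ q * (2 ^ q * ((aa μ p A x k) ^ q + (aa μ p B x k) ^ q)) := by
    intro k
    calc _ ≤ (ENNReal.ofReal (2 ^ p) * (aa μ p A x k + aa μ p B x k)) ^ q :=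
          ENNReal.rpow_le_rpow (aa_union h h2 A B x k) hq.le
      _ = (ENNReal.ofReal (2 ^ p)) ^ q * (aa μ p A x k + aa μ p B x k) ^ q :=
          ENNReal.mul_rpow_of_nonneg _ _ hq.le
      _ ≤ _ := by gcongr; exact add_rpow_le' hq _ _
  refine ne_top_of_le_ne_top ?_ (ENNReal.tsum_le_tsum key)
  rw [ENNReal.tsum_mul_left, ENNReal.tsum_mul_left, ENNReal.tsum_add]
  refine ENNReal.mul_ne_top (ENNReal.rpow_ne_top_of_nonneg hq.le ENNReal.ofReal_ne_top)
    (ENNReal.mul_ne_top (ENNReal.rpow_ne_top_of_nonneg hq.le (by simp)) ?_)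
  exact ENNReal.add_ne_top.2 ⟨hA, hB⟩

theorem capB_empty (hp : 1 < p) (h : S_WU μ p) (x : X) (R : ℝ) : capB μ p ∅ x R = 0 := by
  have hp0 : 0 < p := by linarith
  have h0 : WUG μ p (fun _ : X => (0:ℝ)) (fun _ => 0) := by
    rw [h]
    refine ⟨measurable_const, fun _ => 0, measurable_const, ?_, fun c => Or.inl ?_⟩
    · simp [ENNReal.zero_rpow_of_pos hp0]
    · simp [CrvIneq]
  have hE : En μ p (fun _ : X => (0:ℝ)) = 0 := by
    apply le_antisymm _ bot_le
    refine (iInf₂_le _ h0).trans ?_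
    simp [ENNReal.zero_rpow_of_pos hp0]
  apply le_antisymm _ bot_le
  unfold capB
  refine (iInf_le _ (fun _ : X => (0:ℝ))).trans ?_
  refine (iInf_le _ aemeasurable_const).trans ?_
  refine (iInf_le _ (by simp [ENNReal.zero_rpow_of_pos hp0])).trans ?_
  refine (iInf_le _ (by simp)).trans ?_
  refine (iInf_le _ (by simp)).trans ?_
  exact hE.le

theorem thin_exc (hp : 1 < p) (h1 : S_THIN μ p) (h2 : S_NEG μ p) (h3 : S_WU μ p) {Z : Set X}
    (hZ : Exc μ p Z) (x : X) : Thin μ p Z x := by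
  have hp1 : 0 < p - 1 := by linarith
  have hq : 0 < 1 / (p - 1) := by positivity
  rw [h1]
  have : ∀ k, (aa μ p Z x k) ^ (1 / (p - 1)) = 0 := by
    intro k
    have hk : (0:ℝ) < (1 / 2) ^ k := by positivity
    have h4 := h2 Z hZ ∅ x ((1 / 2) ^ k) (2 * (1 / 2) ^ k) (by linarith)
    rw [empty_union, empty_inter, capB_empty hp h3] at h4
    have h5 : aa μ p Z x k = 0 := by
      unfold aa
      rw [le_antisymm h4 bot_le]
      simp
    rw [h5, ENNReal.zero_rpow_of_pos hq]
  rw [tsum_congr this, tsum_zero]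
  exact ENNReal.zero_ne_top

theorem final_nontrivial (hp : 1 < p) (hD : Dbl μ D) (h1 : S_THIN μ p) (h2 : S_MONO μ p)
    (h3 : S_SUB μ p) (h4 : S_NEG μ p) (h5 : S_WU μ p) (h6 : S_DENS μ p) (h7 : S_MP μ p)
    (U E : Set X) (hU : FineDomain μ p U) (hE : Exc μ p E) : FineDomain μ p (U \ E) := by
  obtain ⟨⟨x0, hx0⟩, hopen, hconn⟩ := hU
  have hEth : ∀ x, Thin μ p E x := thin_exc hp h1 h4 h5 hE
  have hT : ∀ x ∈ U, Thin μ p (U \ E)ᶜ x := by
    intro x hx
    have : (U \ E)ᶜ = Uᶜ ∪ E := by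
      ext y; simp only [mem_compl_iff, mem_diff, mem_union]; tauto
    rw [this]
    exact thin_union hp h1 h2 h3 (hopen x hx) (hEth x)
  refine ⟨?_, fun x hx => hT x hx.1, ?_⟩
  · -- nonempty
    by_contra hne
    rw [not_nonempty_iff_eq_empty, diff_eq_empty] at hne
    have hU0 : μ U = 0 := le_antisymm ((measure_mono hne).trans hE.1.le) bot_le
    have hd := h6 _ _ (hopen x0 hx0)
    have hev : ∀ᶠ r in 𝓝[>] (0:ℝ), dens μ Uᶜ x0 r = 1 := by
      filter_upwards [self_mem_nhdsWithin] with r hr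
      have hr' : (0:ℝ) < r := hr
      unfold dens
      rw [ENNReal.div_eq_one_iff (hD.ne_zero hr') (hD.ne_top _ _)]
      apply le_antisymm (measure_mono inter_subset_right)
      calc μ (ball x0 r) ≤ μ (U ∪ (Uᶜ ∩ ball x0 r)) := measure_mono (by
            intro y hy
            by_cases h : y ∈ U
            · exact Or.inl h
            · exact Or.inr ⟨h, hy⟩)
        _ ≤ μ U + μ (Uᶜ ∩ ball x0 r) := measure_union_le _ _
        _ = _ := by rw [hU0, zero_add]
    have := tendsto_nhds_unique (hd.congr' hev) tendsto_const_nhds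
    exact one_ne_zero this.symm
  · intro P Q hP hQ hcov hAP hAQ
    by_contra hne
    rw [not_nonempty_iff_eq_empty] at hne
    have hu := @thin_union X _ _ μ p hp h1 h2 h3
    set V1 := (U \ E) ∩ P with hV1
    set V2 := (U \ E) ∩ Q with hV2
    have hdis : Disjoint V1 V2 := by
      rw [Set.disjoint_left]
      rintro y ⟨hy1, hy2⟩ ⟨_, hy3⟩
      have : y ∈ (U \ E) ∩ (P ∩ Q) := ⟨hy1, hy2, hy3⟩
      rw [hne] at this
      exact this
    have hV1o : FinelyOpen μ p V1 := by
      intro x hx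
      rw [hV1, compl_inter]
      exact hu (hT x hx.1.1) (hP x hx.2)
    have hV2o : FinelyOpen μ p V2 := by
      intro x hx
      rw [hV2, compl_inter]
      exact hu (hT x hx.1.1) (hQ x hx.2)
    have hun : V1 ∪ V2 = U \ E := by
      rw [hV1, hV2, ← inter_union_distrib_left]
      exact inter_eq_left.2 hcov
    have hmp : ∀ x ∈ U, Thin μ p V1 x ∨ Thin μ p V2 x := by
      intro x hx
      apply h7 V1 V2 hV1o hV2o hdis x
      rw [hun]
      exact hT x hx
    set E1 := {x | x ∈ U ∧ x ∈ E ∧ Thin μ p V2 x} with hE1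
    set E2 := {x | x ∈ U ∧ x ∈ E ∧ ¬ Thin μ p V2 x} with hE2
    have hcov2 : ∀ y ∈ U, y ∉ E → y ∈ V1 ∨ y ∈ V2 := by
      intro y hy hyE
      have : y ∈ V1 ∪ V2 := by rw [hun]; exact ⟨hy, hyE⟩
      exact this
    have hW1 : FinelyOpen μ p (V1 ∪ E1) := by
      rintro x (hx | hx)
      · exact thin_mono hp h1 h2 (compl_subset_compl.2 subset_union_left) (hV1o x hx)
      · refine thin_mono hp h1 h2 (B := (Uᶜ ∪ V2) ∪ E) ?_ (hu (hu (hopen x hx.1) hx.2.2) (hEth x))
        intro y hy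
        by_cases hyU : y ∈ U
        · by_cases hyE : y ∈ E
          · exact Or.inr hyE
          · rcases hcov2 y hyU hyE with h | h
            · exact absurd (Or.inl h) hy
            · exact Or.inl (Or.inr h)
        · exact Or.inl (Or.inl hyU)
    have hW2 : FinelyOpen μ p (V2 ∪ E2) := by
      rintro x (hx | hx)
      · exact thin_mono hp h1 h2 (compl_subset_compl.2 subset_union_left) (hV2o x hx)
      · have ht1 : Thin μ p V1 x := (hmp x hx.1).resolve_right hx.2.2
        refine thin_mono hp h1 h2 (B := (Uᶜ ∪ V1) ∪ E) ?_ (hu (hu (hopen x hx.1) ht1) (hEth x))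
        intro y hy
        by_cases hyU : y ∈ U
        · by_cases hyE : y ∈ E
          · exact Or.inr hyE
          · rcases hcov2 y hyU hyE with h | h
            · exact Or.inl (Or.inr h)
            · exact absurd (Or.inl h) hy
        · exact Or.inl (Or.inl hyU)
    have hfin := hconn _ _ hW1 hW2 (by
      intro y hy
      by_cases hyE : y ∈ E
      · by_cases ht : Thin μ p V2 y
        · exact Or.inl (Or.inr ⟨hy, hyE, ht⟩)
        · exact Or.inr (Or.inr ⟨hy, hyE, ht⟩)
      · rcases hcov2 y hy hyE with h | h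
        · exact Or.inl (Or.inl h)
        · exact Or.inr (Or.inl h)) (by
      obtain ⟨y, hy⟩ := hAP
      exact ⟨y, hy.1.1, Or.inl hy⟩) (by
      obtain ⟨y, hy⟩ := hAQ
      exact ⟨y, hy.1.1, Or.inl hy⟩)
    obtain ⟨y, hyU, hy1, hy2⟩ := hfin
    rcases hy1 with h | h <;> rcases hy2 with h' | h'
    · exact Set.disjoint_left.1 hdis h h'
    · exact h.1.2 h'.2.1
    · exact h'.1.2 h.2.1
    · exact h'.2.2 h.2.2

theorem final_subsingleton [BorelSpace X] [Subsingleton X] (hD : Dbl μ D)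
    (U E : Set X) (hU : FineDomain μ p U) (hE : μ E = 0) : FineDomain μ p (U \ E) := by
  have : E = ∅ := by
    rw [eq_empty_iff_forall_notMem]
    intro x hx
    have h1 : ball x 1 ⊆ E := fun y _ => Subsingleton.elim x y ▸ hx
    have h2 := (measure_mono h1).trans hE.le
    exact absurd (le_antisymm h2 bot_le) (hD.ne_zero one_pos)
  rw [this, diff_empty]
  exact hU

end Pool.Agent.W785.FD
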