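import Pool.Agent.W381.FD.Proper
import Pool.Agent.W440.FD.LD
import Pool.Agent.W193.FD.FA
import Pool.Agent.W591.FD.Jen
import Pool.Agent.W294.FD.Meas
import Pool.Agent.W948.FD.Avg
import Pool.Agent.W490.FD.Pot1
import Pool.Agent.W782.FD.Pot2
import Pool.Agent.W782.FD.Ppp
import Pool.Agent.W101.FD.Chain
import Pool.Agent.W727.FD.WU
import Pool.Agent.W683.FD.Str
import Pool.Agent.W414.FD.Loc
import Pool.Agent.W762.FD.QE
import Pool.Agent.W917.FD.CP0
import Pool.Agent.W576.FD.Cap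
import Pool.Agent.W366.FD.Ann
import Pool.Agent.W597.FD.Sob
import Pool.Agent.W918.FD.Cub
import Pool.Agent.W174.FD.Dens
import Pool.Agent.W806.FD.Ker
import Pool.Agent.W714.FD.L1
import Pool.Agent.W351.FD.Iter
import Pool.Agent.W929.FD.MP
import Pool.Agent.W540.FD.Close
import Pool.Agent.W701.FD.Lsc
import Pool.Agent.W451.FD.CLBCMP
import Pool.Agent.W636.FD.Thin
import Pool.Agent.W705.FD.StepA
import Pool.Agent.W579.FD.StepB
import Pool.Agent.W250.FD.Pair
import Pool.Agent.W377.FD.CutMain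
import Pool.Agent.W214.FD.Key
import Pool.Agent.W785.FD.Fin

/-! Assembly of the theorem on p-fine domains. -/

set_option autoImplicit false

open MeasureTheory Metric Set Filter
open scoped ENNReal NNReal Topology

namespace Pool.Agent.W785.FD

universe u

theorem main
    {X : Type u} [MetricSpace X] [CompleteSpace X] [MeasurableSpace X] [BorelSpace X]
    (μ : Measure X) (p : ℝ) (hp : 1 < p) (hpf : PosFin μ) (hd : Doubling μ) (hPI : Poincare μ p)
    (U E : Set X) (hU : FineDomain μ p U) (hE : Cp μ p E = 0) : FineDomain μ p (U \ E) := by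
  obtain ⟨D0, hD0⟩ := hd
  obtain ⟨C0, L, hL, hpoin⟩ := hPI
  set D : ℝ := max 1 (D0 : ℝ) with hDdef
  have hD : Dbl μ D := by
    refine ⟨le_max_left _ _, fun x r hr => (hpf x r hr).1, fun x r => ?_, fun x r hr => ?_⟩
    · rcases le_or_gt r 0 with h | h
      · rw [ball_eq_empty.2 h]; simp
      · exact (hpf x r h).2
    · refine (hD0 x r hr).trans ?_
      gcongr
      rw [← ENNReal.ofReal_coe_nnreal]
      exact ENNReal.ofReal_le_ofReal (le_max_right _ _)
  have h : PI μ p (max C0 0) L := by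
    refine ⟨hp, le_max_right _ _, hL, fun u g hu hug x r hr => ?_⟩
    refine (hpoin u g hu hug x r hr).trans ?_
    gcongr
    exact le_max_left _ _
  have hproper : ProperSpace X := Pool.Agent.W381.FD.Proper.main μ D hD
  have sLD := Pool.Agent.W440.FD.LD.main μ D hD
  have sFA := Pool.Agent.W193.FD.FA.main μ D hD
  have sJEN := Pool.Agent.W591.FD.Jen.main μ D p hD hp
  have sMEAS := Pool.Agent.W294.FD.Meas.main μ D hD sLD
  have sAVG := Pool.Agent.W948.FD.Avg.main μ D hD sFA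
  have sPOT1 := Pool.Agent.W490.FD.main μ p D hp hD sLD
  have sPOT2 := Pool.Agent.W782.FD.Pot2.main μ p D hp hD sFA
  have sPPP := Pool.Agent.W782.FD.Ppp.main μ p D hp hD sPOT1 sPOT2
  have sCHAIN := Pool.Agent.W101.FD.main μ p D hp hD
  have sCLOSE := Pool.Agent.W540.FD.Close.main μ p D hp hD sAVG sCHAIN sLD
  have sWU := Pool.Agent.W727.FD.WU.main μ p hp
  have sSTR := Pool.Agent.W683.FD.Str.main μ p hp sWU
  have sLOC := Pool.Agent.W414.FD.main μ p hp
  have sQE := Pool.Agent.W762.FD.QE.main μ p hp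
  have sCP0 := Pool.Agent.W917.FD.CP0.main μ p hp sSTR
  have hEx : Exc μ p E := sCP0 E hE
  rcases subsingleton_or_nontrivial X with hs | hs
  · exact final_subsingleton hD U E hU hEx.1
  obtain ⟨sMONO, sSUB, sNEG⟩ := Pool.Agent.W576.FD.main μ p hp sWU
  have sLSC := Pool.Agent.W701.FD.main μ p D hp hD sSTR
  have sANN := Pool.Agent.W366.FD.Ann.main μ p _ L D hD h
  have sSOB := Pool.Agent.W597.FD.Sob.main μ p _ L D hD h sPPP sANN
  have sCUB := Pool.Agent.W918.FD.Cub.main μ p D hp hD sWU sLOC.2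
  obtain ⟨sCLB, sCMP⟩ := Pool.Agent.W451.FD.CLBCMP.main μ p D hp hD sSOB sSTR sLOC.1 sLOC.2 sWU
  have sTHIN := Pool.Agent.W636.FD.main μ p D hp hD sCUB sCLB sCMP sMONO
  have sDENS := Pool.Agent.W174.FD.Dens.main μ p D hp hD sTHIN sCLB
  have sSTEPA := Pool.Agent.W705.FD.StepA.main μ p _ L D hD h sLD sFA
  have sKER := Pool.Agent.W806.FD.Ker.main μ D hD sLOC.2
  have sL1 := Pool.Agent.W714.FD.L1.main μ D hD
  have sSTEPB := Pool.Agent.W579.FD.main μ p _ L D hD h sKER sL1 sFA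
  have sBASIC := Pool.Agent.W351.FD.Iter.main μ p _ L D hD h sSTEPA sSTEPB
  have sPAIR := Pool.Agent.W250.FDPair.main μ p _ L D hD h sBASIC sLD sPOT1 sPOT2 sJEN
  have sCUT := Pool.Agent.W377.FD.CutMain.main μ p D hp hD sPPP sLOC.1 sLOC.2 sWU
  have sKEY := Pool.Agent.W214.FD.main μ p _ L D hD h sBASIC sPAIR sCLOSE sCUT sLSC sQE sNEG sMONO sSUB sDENS sMEAS
    sSOB sLOC.2 sWU
  have sMP := Pool.Agent.W929.FD.MP.main μ p D hp hD sKEY sTHIN sDENS sMEAS sCUB sMONO
  exact final_nontrivial hp hD sTHIN sMONO sSUB sNEG sWU sDENS sMP U E hU hEx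

end Pool.Agent.W785.FD

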