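import Pool.Agent.W785.FD.Stms

/-! Elementary lemmas for project FD. -/

set_option autoImplicit false

open MeasureTheory Metric Set Filter
open scoped ENNReal NNReal Topology

namespace Pool.Agent.W785.FD

variable {X : Type*} [MetricSpace X] [MeasurableSpace X] {μ : Measure X} {D : ℝ}

theorem Dbl.ne_zero (h : Dbl μ D) {x : X} {r : ℝ} (hr : 0 < r) : μ (ball x r) ≠ 0 :=
  (h.pos x r hr).ne'

theorem Dbl.ne_top (h : Dbl μ D) (x : X) (r : ℝ) : μ (ball x r) ≠ ∞ := (h.fin x r).ne

/-- iterated doubling, same centre -/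
theorem Dbl.iter (h : Dbl μ D) (x : X) {r : ℝ} (hr : 0 < r) (n : ℕ) :
    μ (ball x (2 ^ n * r)) ≤ ENNReal.ofReal (D ^ n) * μ (ball x r) := by
  have hD : 0 ≤ D := zero_le_one.trans h.one_le
  induction n with
  | zero => simp
  | succ n ih =>
    have : (2:ℝ) ^ (n + 1) * r = 2 * (2 ^ n * r) := by ring
    rw [this]
    calc _ ≤ _ := h.dbl x (2 ^ n * r) (by positivity)
      _ ≤ ENNReal.ofReal D * (ENNReal.ofReal (D ^ n) * μ (ball x r)) := by gcongr
      _ = _ := by rw [← mul_assoc, ← ENNReal.ofReal_mul hD, pow_succ']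

/-- iterated doubling, different centres -/
theorem Dbl.le (h : Dbl μ D) {x y : X} {R s : ℝ} (hs : 0 < s) (n : ℕ)
    (hn : dist x y + R ≤ 2 ^ n * s) :
    μ (ball x R) ≤ ENNReal.ofReal (D ^ n) * μ (ball y s) := by
  refine (measure_mono (ball_subset_ball' ?_)).trans (h.iter y hs n)
  linarith

/-- comparison of averages of nonnegative functions over nested balls -/
theorem Dbl.lav_le (h : Dbl μ D) (f : X → ℝ≥0∞) {x y : X} {R s : ℝ} (hR : 0 < R) (n : ℕ)
    (hsub : dist x y + R ≤ s) (hn : dist x y + s ≤ 2 ^ n * R) :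
    lav μ f x R ≤ ENNReal.ofReal (D ^ n) * lav μ f y s := by
  have hD : 0 ≤ D := zero_le_one.trans h.one_le
  have hs : 0 < s := by linarith [dist_nonneg (x := x) (y := y)]
  have hsub' : ball x R ⊆ ball y s := ball_subset_ball' (by linarith)
  have h1 : μ (ball y s) ≤ ENNReal.ofReal (D ^ n) * μ (ball x R) :=
    h.le hR n (by rw [dist_comm]; exact hn)
  unfold lav
  rw [ENNReal.div_le_iff (h.ne_zero hR) (h.ne_top _ _)]
  calc ∫⁻ z in ball x R, f z ∂μ ≤ ∫⁻ z in ball y s, f z ∂μ := lintegral_mono_set hsub'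
    _ = (∫⁻ z in ball y s, f z ∂μ) / μ (ball y s) * μ (ball y s) := by
        rw [ENNReal.div_mul_cancel (h.ne_zero hs) (h.ne_top _ _)]
    _ ≤ (∫⁻ z in ball y s, f z ∂μ) / μ (ball y s) * (ENNReal.ofReal (D ^ n) * μ (ball x R)) := by
        gcongr
    _ = _ := by ring

theorem lav_mono (μ : Measure X) {f g : X → ℝ≥0∞} (x : X) (r : ℝ) (h : ∀ y ∈ ball x r, f y ≤ g y)
    (hm : MeasurableSet (ball x r)) : lav μ f x r ≤ lav μ g x r := by
  unfold lav
  gcongr ?_ / _
  exact setLIntegral_mono' hm h

theorem lav_congr_ae (μ : Measure X) {f g : X → ℝ≥0∞} (x : X) (r : ℝ) (h : f =ᵐ[μ] g) :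
    lav μ f x r = lav μ g x r := by
  unfold lav
  rw [lintegral_congr_ae (ae_restrict_of_ae h)]

theorem mean_congr_ae (μ : Measure X) {f g : X → ℝ} (x : X) (r : ℝ) (h : f =ᵐ[μ] g) :
    mean μ f x r = mean μ g x r := by
  unfold mean
  exact average_congr (ae_restrict_of_ae h)

theorem Dbl.locallyFinite (h : Dbl μ D) : IsLocallyFiniteMeasure μ :=
  ⟨fun x => ⟨ball x 1, ball_mem_nhds x one_pos, h.fin x 1⟩⟩

theorem Dbl.sigmaFinite [SecondCountableTopology X] (h : Dbl μ D) : SigmaFinite μ :=
  have := h.locallyFinite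
  inferInstance

section borel
variable [BorelSpace X]

/-- bounded functions are integrable on balls -/
theorem Dbl.li_of_bound (h : Dbl μ D) {u : X → ℝ} (hu : AEMeasurable u μ) (C : ℝ)
    (hC : ∀ x, |u x| ≤ C) : LI μ u := by
  intro x r
  have : IsFiniteMeasure (μ.restrict (ball x r)) := ⟨by simpa using h.fin x r⟩
  exact Integrable.of_bound hu.restrict.aestronglyMeasurable C (ae_of_all _ hC)

theorem mean_sub_const (h : Dbl μ D) {u : X → ℝ} (hu : LI μ u) (x : X) {r : ℝ} (hr : 0 < r)
    (c : ℝ) : ENNReal.ofReal |mean μ u x r - c| ≤ lav μ (fun y => ENNReal.ofReal |u y - c|) x r := by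
  have : IsFiniteMeasure (μ.restrict (ball x r)) := ⟨by simpa using h.fin x r⟩
  have h0 : μ (ball x r) ≠ 0 := h.ne_zero hr
  have ht : μ (ball x r) ≠ ∞ := h.ne_top x r
  have hint : Integrable u (μ.restrict (ball x r)) := hu x r
  have hpos : 0 < μ.real (ball x r) := ENNReal.toReal_pos h0 ht
  have e1 : mean μ u x r - c = (μ.real (ball x r))⁻¹ * ∫ y in ball x r, (u y - c) ∂μ := by
    unfold mean
    rw [setAverage_eq, integral_sub hint (integrable_const c), integral_const]
    simp only [smul_eq_mul, measureReal_restrict_apply_univ]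
    field_simp
  have e2 : lav μ (fun y => ENNReal.ofReal |u y - c|) x r =
      ENNReal.ofReal ((μ.real (ball x r))⁻¹ * ∫ y in ball x r, |u y - c| ∂μ) := by
    unfold lav
    have hi : Integrable (fun y => |u y - c|) (μ.restrict (ball x r)) :=
      (hint.sub (integrable_const c)).abs
    rw [ENNReal.ofReal_mul (by positivity), ofReal_integral_eq_lintegral_ofReal
      hi (ae_of_all _ fun y => abs_nonneg _)]
    rw [ENNReal.div_eq_inv_mul, ENNReal.ofReal_inv_of_pos hpos]
    congr 2
    rw [Measure.real, ENNReal.ofReal_toReal ht]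
  rw [e1, e2]
  apply ENNReal.ofReal_le_ofReal
  rw [abs_mul, abs_of_pos (inv_pos.2 hpos)]
  gcongr
  exact abs_integral_le_integral_abs

/-- comparison of means over nested balls -/
theorem Dbl.mean_sub_le (h : Dbl μ D) {u : X → ℝ} (hu : LI μ u) {x y : X} {R s : ℝ} (hR : 0 < R)
    (n : ℕ) (hsub : dist x y + R ≤ s) (hn : dist x y + s ≤ 2 ^ n * R) :
    ENNReal.ofReal |mean μ u x R - mean μ u y s| ≤ ENNReal.ofReal (D ^ n) * osc μ u y s := by
  refine (mean_sub_const h hu x hR _).trans ?_
  exact h.lav_le _ hR n hsub hn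

/-- the oscillation is at most twice the mean distance from any constant -/
theorem osc_le_two (h : Dbl μ D) {u : X → ℝ} (hu : LI μ u) (x : X) {r : ℝ} (hr : 0 < r) (c : ℝ) :
    osc μ u x r ≤ 2 * lav μ (fun y => ENNReal.ofReal |u y - c|) x r := by
  have h0 : μ (ball x r) ≠ 0 := h.ne_zero hr
  have ht : μ (ball x r) ≠ ∞ := h.ne_top x r
  have hm := mean_sub_const h hu x hr c
  have hae : AEMeasurable (fun y => ENNReal.ofReal |u y - c|) (μ.restrict (ball x r)) := by
    have := (hu x r).aestronglyMeasurable.aemeasurable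
    exact ((this.sub_const c).abs).ennreal_ofReal
  unfold osc
  calc lav μ (fun y => ENNReal.ofReal |u y - mean μ u x r|) x r
      ≤ lav μ (fun y => ENNReal.ofReal |u y - c| + ENNReal.ofReal |mean μ u x r - c|) x r := by
        apply lav_mono μ x r _ measurableSet_ball
        intro y _
        rw [← ENNReal.ofReal_add (abs_nonneg _) (abs_nonneg _)]
        apply ENNReal.ofReal_le_ofReal
        have : u y - mean μ u x r = (u y - c) - (mean μ u x r - c) := by ring
        rw [this]
        exact abs_sub _ _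
    _ = lav μ (fun y => ENNReal.ofReal |u y - c|) x r + ENNReal.ofReal |mean μ u x r - c| := by
        unfold lav
        rw [lintegral_add_right' _ aemeasurable_const, lintegral_const,
          Measure.restrict_apply_univ, ENNReal.add_div, ENNReal.mul_div_cancel_right h0 ht]
    _ ≤ _ := by
        rw [two_mul]
        gcongr

/-- measures of balls of fixed radius depend measurably on the centre -/
theorem measurable_measure_ball (ν : Measure X) (r : ℝ) : Measurable (fun z => ν (ball z r)) := by
  have : LowerSemicontinuous (fun z => ν (ball z r)) := by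
    intro z a ha
    have hU : ball z r = ⋃ n : ℕ, ball z (r - 1 / ((n:ℝ) + 1)) := by
      ext w
      simp only [mem_iUnion, mem_ball]
      constructor
      · intro hw
        obtain ⟨n, hn⟩ := exists_nat_one_div_lt (sub_pos.2 hw)
        exact ⟨n, by linarith⟩
      · rintro ⟨n, hn⟩
        have : 0 < 1 / ((n:ℝ) + 1) := by positivity
        linarith
    have hmono : Monotone (fun n : ℕ => ball z (r - 1 / ((n:ℝ) + 1))) := by
      intro m n hmn
      apply ball_subset_ball
      have : (1:ℝ) / ((n:ℝ) + 1) ≤ 1 / ((m:ℝ) + 1) := by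
        apply one_div_le_one_div_of_le (by positivity)
        have : (m:ℝ) ≤ n := by exact_mod_cast hmn
        linarith
      linarith
    have hlim := tendsto_measure_iUnion_atTop (μ := ν) hmono
    rw [← hU] at hlim
    obtain ⟨n, hn⟩ := (hlim.eventually (lt_mem_nhds ha)).exists
    have hpos : 0 < 1 / ((n:ℝ) + 1) := by positivity
    filter_upwards [ball_mem_nhds z hpos] with z' hz'
    refine lt_of_lt_of_le hn (measure_mono (ball_subset_ball' ?_))
    rw [mem_ball, dist_comm] at hz'
    linarith
  exact this.measurable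

/-- averages over balls of fixed radius depend measurably on the centre -/
theorem measurable_lav (f : X → ℝ≥0∞) (hf : AEMeasurable f μ) (r : ℝ) :
    Measurable (fun z => lav μ f z r) := by
  have e : (fun z => lav μ f z r) =
      fun z => (μ.withDensity (hf.mk f)) (ball z r) / μ (ball z r) := by
    ext z
    unfold lav
    rw [withDensity_apply _ measurableSet_ball, lintegral_congr_ae (ae_restrict_of_ae hf.ae_eq_mk)]
  rw [e]
  exact (measurable_measure_ball _ r).div (measurable_measure_ball _ r)

/-- densities depend measurably on the centre -/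
theorem measurable_dens {V : Set X} (hV : NullMeasurableSet V μ) (r : ℝ) :
    Measurable (fun z => dens μ V z r) := by
  have e : (fun z => dens μ V z r) = fun z => (μ.restrict V) (ball z r) / μ (ball z r) := by
    ext z
    unfold dens
    rw [Measure.restrict_apply measurableSet_ball, inter_comm]
  rw [e]
  exact (measurable_measure_ball _ r).div (measurable_measure_ball _ r)

theorem dens_add_compl (h : Dbl μ D) {V : Set X} (hV : NullMeasurableSet V μ) (x : X) {r : ℝ}
    (hr : 0 < r) : dens μ V x r + dens μ Vᶜ x r = 1 := by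
  unfold dens
  rw [← ENNReal.add_div, inter_comm V, inter_comm Vᶜ, ← diff_eq, measure_inter_add_diff₀ _ hV,
    ENNReal.div_self (h.ne_zero hr) (h.ne_top _ _)]

end borel

theorem dens_mono (μ : Measure X) {V W : Set X} (hVW : V ⊆ W) (x : X) (r : ℝ) :
    dens μ V x r ≤ dens μ W x r := by
  unfold dens
  gcongr

/-- comparison of densities in nested balls -/
theorem Dbl.dens_le (h : Dbl μ D) (V : Set X) {x y : X} {R s : ℝ} (hR : 0 < R) (n : ℕ)
    (hsub : dist x y + R ≤ s) (hn : dist x y + s ≤ 2 ^ n * R) :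
    dens μ V x R ≤ ENNReal.ofReal (D ^ n) * dens μ V y s := by
  have hs : 0 < s := by linarith [dist_nonneg (x := x) (y := y)]
  have hsub' : ball x R ⊆ ball y s := ball_subset_ball' (by linarith)
  have h1 : μ (ball y s) ≤ ENNReal.ofReal (D ^ n) * μ (ball x R) :=
    h.le hR n (by rw [dist_comm]; exact hn)
  unfold dens
  rw [ENNReal.div_le_iff (h.ne_zero hR) (h.ne_top _ _)]
  calc μ (V ∩ ball x R) ≤ μ (V ∩ ball y s) := by gcongr
    _ = μ (V ∩ ball y s) / μ (ball y s) * μ (ball y s) := by
        rw [ENNReal.div_mul_cancel (h.ne_zero hs) (h.ne_top _ _)]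
    _ ≤ μ (V ∩ ball y s) / μ (ball y s) * (ENNReal.ofReal (D ^ n) * μ (ball x R)) := by
        gcongr
    _ = _ := by ring

end Pool.Agent.W785.FD
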