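import Mathlib

/-! Definitions for MP_024e69_an: Newtonian spaces, capacities and the p-fine topology of a metric
measure space (doubling, p-Poincare). -/

set_option autoImplicit false

open MeasureTheory Metric Set Filter
open scoped ENNReal NNReal Topology

namespace Pool.Agent.W785.FD

universe u

/-- A compact rectifiable curve of `X`, given by a `1`-Lipschitz parametrisation of `[0, l]`
(extended to the real line, only the values on `[0, l]` matter). Every arc length parametrisation is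
of this kind, and the line integral of a nonnegative function over the curve is at most the integral
`∫_0^l g (γ t) dt` for every such parametrisation, so that upper gradients and families of modulus
zero are the usual ones. -/
structure Crv (X : Type u) [MetricSpace X] where
  /-- length of the parameter interval -/
  l : ℝ
  nonneg : 0 ≤ l
  /-- the parametrisation -/
  γ : ℝ → X
  lip : LipschitzWith 1 γ

variable {X : Type u} [MetricSpace X]

/-- The integral of `g` along the curve. -/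
noncomputable def Crv.int (c : Crv X) (g : X → ℝ≥0∞) : ℝ≥0∞ := ∫⁻ t in Icc 0 c.l, g (c.γ t)

/-- The upper gradient inequality for `u`, `g` on the curve `c`. -/
def CrvIneq (u : X → ℝ) (g : X → ℝ≥0∞) (c : Crv X) : Prop :=
  ENNReal.ofReal |u (c.γ 0) - u (c.γ c.l)| ≤ c.int g

variable [MeasurableSpace X]

/-- `g` is a (Borel) upper gradient of `u`. -/
def UG (u : X → ℝ) (g : X → ℝ≥0∞) : Prop := Measurable g ∧ ∀ c : Crv X, CrvIneq u g c

/-- The `p`-modulus of a family of curves. -/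
noncomputable def Mod (μ : Measure X) (p : ℝ) (Γ : Set (Crv X)) : ℝ≥0∞ :=
  ⨅ (ρ : X → ℝ≥0∞) (_ : Measurable ρ) (_ : ∀ c ∈ Γ, 1 ≤ c.int ρ), ∫⁻ x, ρ x ^ p ∂μ

/-- `g` is a `p`-weak upper gradient of `u`: the upper gradient inequality holds for all curves
outside a family of `p`-modulus zero. -/
def WUG (μ : Measure X) (p : ℝ) (u : X → ℝ) (g : X → ℝ≥0∞) : Prop :=
  Measurable g ∧ Mod μ p {c | ¬ CrvIneq u g c} = 0

/-- The infimum of `∫ g^p` over the `p`-weak upper gradients `g` of `u`. -/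
noncomputable def En (μ : Measure X) (p : ℝ) (u : X → ℝ) : ℝ≥0∞ :=
  ⨅ (g : X → ℝ≥0∞) (_ : WUG μ p u g), ∫⁻ x, g x ^ p ∂μ

/-- The Sobolev capacity `C_p`: infimum of `‖u‖_{N^{1,p}}^p = ∫ |u|^p + inf_g ∫ g^p` over all
`u ≥ 1` on `E`. -/
noncomputable def Cp (μ : Measure X) (p : ℝ) (E : Set X) : ℝ≥0∞ :=
  ⨅ (u : X → ℝ) (_ : AEMeasurable u μ) (_ : ∀ x ∈ E, 1 ≤ u x),
    (∫⁻ x, (ENNReal.ofReal |u x|) ^ p ∂μ + En μ p u)

/-- The variational capacity of `A` relative to the ball `B(x, r)`: infimum of `inf_g ∫ g^p` over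
all `u ∈ N^{1,p}(X)` with `u ≥ 1` on `A` and `u = 0` outside `B(x, r)`. -/
noncomputable def capB (μ : Measure X) (p : ℝ) (A : Set X) (x : X) (r : ℝ) : ℝ≥0∞ :=
  ⨅ (u : X → ℝ) (_ : AEMeasurable u μ) (_ : ∫⁻ y, (ENNReal.ofReal |u y|) ^ p ∂μ < ∞)
    (_ : ∀ y ∈ A, 1 ≤ u y) (_ : ∀ y, y ∉ ball x r → u y = 0), En μ p u

/-- `E` is `p`-thin at `x` (Wiener integral). -/
def Thin (μ : Measure X) (p : ℝ) (E : Set X) (x : X) : Prop :=
  ∫⁻ r in Ioo (0 : ℝ) 1, (capB μ p (E ∩ ball x r) x (2 * r) / capB μ p (ball x r) x (2 * r)) ^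
    (1 / (p - 1)) / ENNReal.ofReal r < ∞

/-- `V` is `p`-finely open. -/
def FinelyOpen (μ : Measure X) (p : ℝ) (V : Set X) : Prop := ∀ x ∈ V, Thin μ p Vᶜ x

/-- `U` is a `p`-fine domain: nonempty, `p`-finely open and connected in the `p`-fine topology. -/
def FineDomain (μ : Measure X) (p : ℝ) (U : Set X) : Prop :=
  U.Nonempty ∧ FinelyOpen μ p U ∧ ∀ A B : Set X, FinelyOpen μ p A → FinelyOpen μ p B →
    U ⊆ A ∪ B → (U ∩ A).Nonempty → (U ∩ B).Nonempty → (U ∩ (A ∩ B)).Nonempty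

/-- Average of a nonnegative function over the ball `B(x, r)`. -/
noncomputable def lav (μ : Measure X) (f : X → ℝ≥0∞) (x : X) (r : ℝ) : ℝ≥0∞ :=
  (∫⁻ y in ball x r, f y ∂μ) / μ (ball x r)

/-- Average of a real function over the ball `B(x, r)`. -/
noncomputable def mean (μ : Measure X) (u : X → ℝ) (x : X) (r : ℝ) : ℝ := ⨍ y in ball x r, u y ∂μ

/-- Mean oscillation of `u` on `B(x, r)`. -/
noncomputable def osc (μ : Measure X) (u : X → ℝ) (x : X) (r : ℝ) : ℝ≥0∞ :=
  lav μ (fun y => ENNReal.ofReal |u y - mean μ u x r|) x r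

/-- `X` supports a `p`-Poincare inequality. -/
def Poincare (μ : Measure X) (p : ℝ) : Prop :=
  ∃ C L : ℝ, 1 ≤ L ∧ ∀ (u : X → ℝ) (g : X → ℝ≥0∞), (∀ x r, IntegrableOn u (ball x r) μ) →
    UG u g → ∀ (x : X) (r : ℝ), 0 < r →
      osc μ u x r ≤ ENNReal.ofReal (C * r) * (lav μ (fun y => g y ^ p) x (L * r)) ^ (1 / p)

/-- `μ` is positive and finite on balls. -/
def PosFin (μ : Measure X) : Prop := ∀ (x : X) (r : ℝ), 0 < r → 0 < μ (ball x r) ∧ μ (ball x r) < ∞

/-- `μ` is doubling. -/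
def Doubling (μ : Measure X) : Prop :=
  ∃ C : ℝ≥0, ∀ (x : X) (r : ℝ), 0 < r → μ (ball x (2 * r)) ≤ C * μ (ball x r)

end Pool.Agent.W785.FD
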